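import Mathlib

/-!
# Every lattice variety is defined by its symmetric identities

Let `V` be a variety of lattices and let `L` be a lattice that satisfies every symmetric identity
valid in `V`.  Then `L` belongs to `V`.

Sketch.  Suppose an inequality valid in `V` fails in `L`.  Work in the lattice `K` of ideals of
`L`, with a maximal ideal `v` separating the two sides.  Choose a failing inequality
`p(b, v) ≤ q(b, v)` in the least possible number of variables and give the `i`-th variable
the multiplicity `2 ^ i`, with the variable evaluated at `v` last.  Minimality implies that every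
rearrangement of the variables that does not preserve the multiplicity classes can be absorbed by
enlarging `q`.  The joins of all permuted copies of `p` and the meet of all permuted copies of `q`
then form a symmetric identity that is valid in `V` and fails in `K`, hence in `L`.
-/

namespace Pool.Agent.Results.MP_fa43b0_al.SymmetricAxioms

universe u

/-- Lattice terms in the variables `x_i`, `i : ι`. -/
inductive LTerm (ι : Type) : Type
  | var : ι → LTerm ι
  | sup : LTerm ι → LTerm ι → LTerm ι
  | inf : LTerm ι → LTerm ι → LTerm ι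

namespace LTerm

variable {ι κ : Type}

/-- The value of a lattice term under an assignment. -/
def eval {L : Type u} [Lattice L] (v : ι → L) : LTerm ι → L
  | var i => v i
  | sup s t => s.eval v ⊔ t.eval v
  | inf s t => s.eval v ⊓ t.eval v

/-- The term obtained by replacing each variable `x_i` by `x_{g i}`. -/
def rename (g : ι → κ) : LTerm ι → LTerm κ
  | var i => var (g i)
  | sup s t => sup (s.rename g) (t.rename g)
  | inf s t => inf (s.rename g) (t.rename g)

end LTerm

/-- The identity `s ≈ t` holds in the lattice `L`. -/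
def HoldsIn (L : Type u) [Lattice L] {ι : Type} (s t : LTerm ι) : Prop :=
  ∀ v : ι → L, s.eval v = t.eval v

/-- `L` belongs to the lattice variety defined by the set `E` of identities. -/
def InVariety (E : Set (LTerm ℕ × LTerm ℕ)) (L : Type u) [Lattice L] : Prop :=
  ∀ e ∈ E, HoldsIn L e.1 e.2

/-- The terms `s` and `t` represent the same element of the free lattice: the identity `s ≈ t`
holds in all lattices. -/
def EqInFree {ι : Type} (s t : LTerm ι) : Prop :=
  ∀ (M : Type u) [Lattice M], HoldsIn M s t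

/-- The `n`-ary term `t` is symmetric: `t = t_σ` in the free lattice `FL(n)` for all `σ ∈ S_n`. -/
def IsSymmetric {n : ℕ} (t : LTerm (Fin n)) : Prop :=
  ∀ σ : Equiv.Perm (Fin n), EqInFree.{u} t (t.rename σ)

/-- `L` belongs to the symmetric part of the variety `V` defined by `E`: it satisfies every
symmetric identity (of any arity) that holds in `V`. -/
def InSymmetricPart (E : Set (LTerm ℕ × LTerm ℕ)) (L : Type u) [Lattice L] : Prop :=
  ∀ (n : ℕ) (t s : LTerm (Fin n)), IsSymmetric.{u} t → IsSymmetric.{u} s →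
    (∀ (M : Type u) [Lattice M], InVariety E M → HoldsIn M t s) → HoldsIn L t s

/-! ### Terms -/

namespace LTerm

variable {ι κ α : Type} {L : Type u} [Lattice L]

/-- substitution -/
def bind (f : ι → LTerm κ) : LTerm ι → LTerm κ
  | var i => f i
  | sup s t => sup (s.bind f) (t.bind f)
  | inf s t => inf (s.bind f) (t.bind f)

theorem eval_bind (f : ι → LTerm κ) (v : κ → L) (t : LTerm ι) :
    (t.bind f).eval v = t.eval (fun i => (f i).eval v) := by
  induction t with
  | var i => rfl
  | sup s t hs ht => simp only [bind, eval, hs, ht]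
  | inf s t hs ht => simp only [bind, eval, hs, ht]

theorem eval_rename (g : ι → κ) (v : κ → L) (t : LTerm ι) :
    (t.rename g).eval v = t.eval (fun i => v (g i)) := by
  induction t with
  | var i => rfl
  | sup s t hs ht => simp only [rename, eval, hs, ht]
  | inf s t hs ht => simp only [rename, eval, hs, ht]

theorem eval_mono {v w : ι → L} (h : ∀ i, v i ≤ w i) (t : LTerm ι) : t.eval v ≤ t.eval w := by
  induction t with
  | var i => exact h i
  | sup s t hs ht => exact sup_le_sup hs ht
  | inf s t hs ht => exact inf_le_inf hs ht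

theorem foldr_sup_le (l : List (LTerm κ)) (a : LTerm κ) (v : κ → L) (z : L) :
    (l.foldr sup a).eval v ≤ z ↔ a.eval v ≤ z ∧ ∀ t ∈ l, t.eval v ≤ z := by
  induction l with
  | nil => simp
  | cons b l ih =>
    simp only [List.foldr_cons, eval, sup_le_iff, ih, List.mem_cons, forall_eq_or_imp]
    tauto

theorem le_foldr_inf (l : List (LTerm κ)) (a : LTerm κ) (v : κ → L) (z : L) :
    z ≤ (l.foldr inf a).eval v ↔ z ≤ a.eval v ∧ ∀ t ∈ l, z ≤ t.eval v := by
  induction l with
  | nil => simp
  | cons b l ih =>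
    simp only [List.foldr_cons, eval, le_inf_iff, ih, List.mem_cons, forall_eq_or_imp]
    tauto

/-- finite nonempty join of terms -/
noncomputable def bSup (s : Finset α) (hs : s.Nonempty) (f : α → LTerm κ) : LTerm κ :=
  (s.toList.map f).foldr sup (f hs.choose)

/-- finite nonempty meet of terms -/
noncomputable def bInf (s : Finset α) (hs : s.Nonempty) (f : α → LTerm κ) : LTerm κ :=
  (s.toList.map f).foldr inf (f hs.choose)

theorem bSup_le {s : Finset α} {hs : s.Nonempty} {f : α → LTerm κ} {v : κ → L} {z : L} :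
    (bSup s hs f).eval v ≤ z ↔ ∀ a ∈ s, (f a).eval v ≤ z := by
  unfold bSup
  rw [foldr_sup_le]
  constructor
  · rintro ⟨_, h⟩ a ha
    exact h _ (List.mem_map.2 ⟨a, Finset.mem_toList.2 ha, rfl⟩)
  · intro h
    refine ⟨h _ hs.choose_spec, ?_⟩
    intro t ht
    obtain ⟨a, ha, rfl⟩ := List.mem_map.1 ht
    exact h a (Finset.mem_toList.1 ha)

theorem le_bInf {s : Finset α} {hs : s.Nonempty} {f : α → LTerm κ} {v : κ → L} {z : L} :
    z ≤ (bInf s hs f).eval v ↔ ∀ a ∈ s, z ≤ (f a).eval v := by
  unfold bInf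
  rw [le_foldr_inf]
  constructor
  · rintro ⟨_, h⟩ a ha
    exact h _ (List.mem_map.2 ⟨a, Finset.mem_toList.2 ha, rfl⟩)
  · intro h
    refine ⟨h _ hs.choose_spec, ?_⟩
    intro t ht
    obtain ⟨a, ha, rfl⟩ := List.mem_map.1 ht
    exact h a (Finset.mem_toList.1 ha)

theorem le_bSup {s : Finset α} {hs : s.Nonempty} {f : α → LTerm κ} {v : κ → L} {a : α}
    (ha : a ∈ s) : (f a).eval v ≤ (bSup s hs f).eval v := bSup_le.1 le_rfl a ha

theorem bInf_le {s : Finset α} {hs : s.Nonempty} {f : α → LTerm κ} {v : κ → L} {a : α}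
    (ha : a ∈ s) : (bInf s hs f).eval v ≤ (f a).eval v := le_bInf.1 le_rfl a ha

/-- a bound for the indices of the variables of a term -/
def bound : LTerm ℕ → ℕ
  | var i => i
  | sup s t => max s.bound t.bound
  | inf s t => max s.bound t.bound

theorem eval_congr {v w : ℕ → L} (t : LTerm ℕ) (h : ∀ i, i ≤ t.bound → v i = w i) :
    t.eval v = t.eval w := by
  induction t with
  | var i => exact h i le_rfl
  | sup s t hs ht =>
    simp only [eval]
    rw [hs fun i hi => h i (hi.trans (le_max_left _ _)), ht fun i hi => h i (hi.trans (le_max_right _ _))]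
  | inf s t hs ht =>
    simp only [eval]
    rw [hs fun i hi => h i (hi.trans (le_max_left _ _)), ht fun i hi => h i (hi.trans (le_max_right _ _))]

/-- Values of terms in the lattice of ideals. -/
theorem mem_eval_ideal (t : LTerm ι) (I : ι → Order.Ideal L) (z : L) :
    z ∈ t.eval I ↔ ∃ x : ι → L, (∀ i, x i ∈ I i) ∧ z ≤ t.eval x := by
  classical
  induction t generalizing z with
  | var i =>
    constructor
    · intro h
      refine ⟨fun j => if j = i then z else (I j).nonempty.choose, ?_, ?_⟩
      · intro j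
        by_cases hj : j = i
        · subst hj
          have h' : z ∈ I j := h
          simpa using h'
        · simp only [hj, if_false]
          exact (I j).nonempty.choose_spec
      · simp [eval]
    · rintro ⟨x, hx, hz⟩
      exact (I i).lower hz (hx i)
  | sup s t hs ht =>
    constructor
    · intro h
      obtain ⟨a, ha, b, hb, hz⟩ := Order.Ideal.mem_sup.1 h
      obtain ⟨x, hx, hax⟩ := (hs a).1 ha
      obtain ⟨y, hy, hby⟩ := (ht b).1 hb
      refine ⟨fun i => x i ⊔ y i, fun i => Order.Ideal.sup_mem (hx i) (hy i), hz.trans ?_⟩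
      exact sup_le_sup (hax.trans (eval_mono (fun i => le_sup_left) s))
        (hby.trans (eval_mono (fun i => le_sup_right) t))
    · rintro ⟨x, hx, hz⟩
      exact Order.Ideal.mem_sup.2 ⟨s.eval x, (hs _).2 ⟨x, hx, le_rfl⟩, t.eval x,
        (ht _).2 ⟨x, hx, le_rfl⟩, hz⟩
  | inf s t hs ht =>
    constructor
    · intro h
      obtain ⟨h1, h2⟩ := Order.Ideal.mem_inf.1 h
      obtain ⟨x, hx, hax⟩ := (hs z).1 h1
      obtain ⟨y, hy, hby⟩ := (ht z).1 h2
      refine ⟨fun i => x i ⊔ y i, fun i => Order.Ideal.sup_mem (hx i) (hy i), ?_⟩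
      exact le_inf (hax.trans (eval_mono (fun i => le_sup_left) s))
        (hby.trans (eval_mono (fun i => le_sup_right) t))
    · rintro ⟨x, hx, hz⟩
      exact Order.Ideal.mem_inf.2 ⟨(hs _).2 ⟨x, hx, hz.trans inf_le_left⟩,
        (ht _).2 ⟨x, hx, hz.trans inf_le_right⟩⟩

theorem eval_principal (t : LTerm ι) (a : ι → L) :
    t.eval (fun i => Order.Ideal.principal (a i)) = Order.Ideal.principal (t.eval a) := by
  apply Order.Ideal.ext
  ext z
  show z ∈ t.eval (fun i => Order.Ideal.principal (a i)) ↔ z ∈ Order.Ideal.principal (t.eval a)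
  rw [mem_eval_ideal, Order.Ideal.mem_principal]
  constructor
  · rintro ⟨x, hx, hz⟩
    exact hz.trans (eval_mono (fun i => Order.Ideal.mem_principal.1 (hx i)) t)
  · intro hz
    exact ⟨a, fun i => Order.Ideal.mem_principal.2 le_rfl, hz⟩

/-- Inequalities pass to the lattice of ideals. -/
theorem le_ideal {p q : LTerm ι} (h : ∀ v : ι → L, p.eval v ≤ q.eval v)
    (I : ι → Order.Ideal L) : p.eval I ≤ q.eval I := by
  intro z hz
  have hz' : z ∈ p.eval I := hz
  rw [mem_eval_ideal] at hz'
  obtain ⟨x, hx, hzx⟩ := hz'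
  exact (mem_eval_ideal q I z).2 ⟨x, hx, hzx.trans (h x)⟩

end LTerm

open LTerm

/-! ### The classes of variables -/

/-- The class of the position `x`: there are `2 ^ i` positions of class `i`. -/
def cls (k : ℕ) (x : Fin (2 ^ (k + 1) - 1)) : Fin (k + 1) :=
  ⟨Nat.log 2 (x + 1), by
    apply Nat.log_lt_of_lt_pow (by omega)
    have := x.2
    omega⟩

theorem cls_val (k : ℕ) (x : Fin (2 ^ (k + 1) - 1)) : (cls k x : ℕ) = Nat.log 2 (x + 1) := rfl

theorem exists_pos (k : ℕ) (i : Fin (k + 1)) (j : ℕ) (hj : j < 2 ^ (i : ℕ)) :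
    ∃ x : Fin (2 ^ (k + 1) - 1), (x : ℕ) = 2 ^ (i : ℕ) - 1 + j ∧ cls k x = i := by
  have h1 : 0 < 2 ^ (i : ℕ) := by positivity
  have h2 : 2 ^ ((i : ℕ) + 1) ≤ 2 ^ (k + 1) := Nat.pow_le_pow_right (by omega) i.2
  have h3 : 2 ^ ((i : ℕ) + 1) = 2 * 2 ^ (i : ℕ) := by rw [pow_succ]; ring
  refine ⟨⟨2 ^ (i : ℕ) - 1 + j, by omega⟩, rfl, ?_⟩
  apply Fin.ext
  rw [cls_val]
  apply Nat.log_eq_of_pow_le_of_lt_pow
  · show 2 ^ (i : ℕ) ≤ 2 ^ (i : ℕ) - 1 + j + 1
    omega
  · show 2 ^ (i : ℕ) - 1 + j + 1 < 2 ^ ((i : ℕ) + 1)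
    omega

/-- the positions of class `i` -/
def A (k : ℕ) (i : Fin (k + 1)) : Finset (Fin (2 ^ (k + 1) - 1)) :=
  Finset.univ.filter (fun x => cls k x = i)

theorem mem_A {k : ℕ} {i : Fin (k + 1)} {x : Fin (2 ^ (k + 1) - 1)} : x ∈ A k i ↔ cls k x = i := by
  simp [A]

theorem A_nonempty (k : ℕ) (i : Fin (k + 1)) : (A k i).Nonempty := by
  obtain ⟨x, _, hx⟩ := exists_pos k i 0 (by positivity)
  exact ⟨x, mem_A.2 hx⟩

theorem lt_of_cls_lt {k : ℕ} {t : Fin (k + 1)} {x : Fin (2 ^ (k + 1) - 1)} (h : cls k x < t) :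
    (x : ℕ) < 2 ^ (t : ℕ) - 1 := by
  have h' : Nat.log 2 ((x : ℕ) + 1) < (t : ℕ) := h
  have := Nat.lt_pow_of_log_lt (by omega : 1 < 2) h'
  omega

/-- A permutation that maps class `t` into the classes `≤ t` maps some element of class `t` into
class `t`. -/
theorem exists_loop {k : ℕ} (τ : Equiv.Perm (Fin (2 ^ (k + 1) - 1))) (t : Fin (k + 1))
    (h : ∀ x, cls k x = t → cls k (τ x) ≤ t) : ∃ x, cls k x = t ∧ cls k (τ x) = t := by
  by_contra hcon
  push Not at hcon
  have h' : ∀ x, cls k x = t → cls k (τ x) < t := fun x hx => lt_of_le_of_ne (h x hx) (hcon x hx)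
  choose f hf1 hf2 using fun j : Fin (2 ^ (t : ℕ)) => exists_pos k t j j.2
  let g : Fin (2 ^ (t : ℕ)) → Fin (2 ^ (t : ℕ) - 1) := fun j =>
    ⟨(τ (f j) : ℕ), lt_of_cls_lt (h' (f j) (hf2 j))⟩
  have hg : Function.Injective g := by
    intro a b hab
    have h0 : (g a : ℕ) = (g b : ℕ) := by rw [hab]
    have h1 : (τ (f a) : ℕ) = (τ (f b) : ℕ) := h0
    have h2 : f a = f b := τ.injective (Fin.ext h1)
    have h3 : ((f a : Fin (2 ^ (k + 1) - 1)) : ℕ) = (f b : ℕ) := by rw [h2]
    rw [hf1, hf1] at h3
    exact Fin.ext (by omega)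
  have hc := Fintype.card_le_of_injective g hg
  rw [Fintype.card_fin, Fintype.card_fin] at hc
  have : 0 < 2 ^ (t : ℕ) := by positivity
  omega

/-! ### The operator `S τ` -/

/-- `⋁_{l ∈ A_j} x_{c(τ l)}` -/
noncomputable def sterm {k : ℕ} (τ : Equiv.Perm (Fin (2 ^ (k + 1) - 1))) (j : Fin (k + 1)) :
    LTerm (Fin (k + 1)) :=
  bSup (A k j) (A_nonempty k j) (fun l => var (cls k (τ l)))

section operator

variable {K : Type u} [Lattice K] {k : ℕ}

/-- the operator on tuples -/
noncomputable def S (τ : Equiv.Perm (Fin (2 ^ (k + 1) - 1))) (b : Fin (k + 1) → K) :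
    Fin (k + 1) → K :=
  fun j => (sterm τ j).eval b

theorem le_S (τ : Equiv.Perm (Fin (2 ^ (k + 1) - 1))) (b : Fin (k + 1) → K)
    (x : Fin (2 ^ (k + 1) - 1)) : b (cls k (τ x)) ≤ S τ b (cls k x) :=
  le_bSup (f := fun l => var (cls k (τ l))) (v := b) (hs := A_nonempty k (cls k x)) (mem_A.2 rfl)

theorem le_S_iter (τ : Equiv.Perm (Fin (2 ^ (k + 1) - 1))) (M : ℕ) (b : Fin (k + 1) → K)
    (x : Fin (2 ^ (k + 1) - 1)) : b (cls k ((τ ^ M) x)) ≤ (S τ)^[M] b (cls k x) := by
  induction M generalizing b with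
  | zero => exact le_rfl
  | succ M ih =>
    rw [Function.iterate_succ_apply]
    refine le_trans ?_ (ih (S τ b))
    have h := le_S τ b ((τ ^ M) x)
    have e : (τ ^ (M + 1)) x = τ ((τ ^ M) x) := by
      rw [show τ ^ (M + 1) = τ * τ ^ M from pow_succ' τ M]; rfl
    rw [e]
    exact h

theorem loop_iter (τ : Equiv.Perm (Fin (2 ^ (k + 1) - 1))) (t : Fin (k + 1))
    (hl : ∀ b : Fin (k + 1) → K, b t ≤ S τ b t) (M : ℕ) (b : Fin (k + 1) → K) :
    b t ≤ (S τ)^[M] b t := by
  induction M generalizing b with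
  | zero => exact le_rfl
  | succ M ih =>
    rw [Function.iterate_succ_apply]
    exact (hl b).trans (ih (S τ b))

/-- If `S τ` preserves all inequalities `q(b) ≤ v`, then two coordinates of `b` can be merged. -/
theorem merge (b : Fin (k + 1) → K) (v : K) (τ : Equiv.Perm (Fin (2 ^ (k + 1) - 1)))
    (hτ : ∃ x, cls k (τ x) ≠ cls k x)
    (hI : ∀ q : LTerm (Fin (k + 1)), q.eval b ≤ v → q.eval (S τ b) ≤ v) :
    ∃ t j : Fin (k + 1), j < t ∧ ∀ q : LTerm (Fin (k + 1)), q.eval b ≤ v →
      q.eval (fun i => if i = t ∨ i = j then b t ⊔ b j else b i) ≤ v := by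
  classical
  let s : Finset (Fin (k + 1)) := Finset.univ.filter (fun i => ∃ x, cls k x = i ∧ cls k (τ x) ≠ i)
  have hs : s.Nonempty := by
    obtain ⟨x, hx⟩ := hτ
    exact ⟨cls k x, Finset.mem_filter.2 ⟨Finset.mem_univ _, x, rfl, hx⟩⟩
  set t := s.max' hs with ht
  have htmem : t ∈ s := Finset.max'_mem s hs
  obtain ⟨x0, hx0, hx0'⟩ := (Finset.mem_filter.1 htmem).2
  have habove : ∀ i, t < i → ∀ x, cls k x = i → cls k (τ x) = i := by
    intro i hi x hx
    by_contra hcon
    have : i ∈ s := Finset.mem_filter.2 ⟨Finset.mem_univ _, x, hx, hcon⟩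
    exact absurd (Finset.le_max' s i this) (not_le.2 hi)
  have habove' : ∀ i, t < i → ∀ x, cls k (τ x) = i → cls k x = i := by
    intro i hi x hx
    have hsub : (A k i).image τ ⊆ A k i := by
      intro y hy
      obtain ⟨z, hz, rfl⟩ := Finset.mem_image.1 hy
      exact mem_A.2 (habove i hi z (mem_A.1 hz))
    have hcard : (A k i).card ≤ ((A k i).image τ).card := by
      rw [Finset.card_image_of_injective _ τ.injective]
    have heq := Finset.eq_of_subset_of_card_le hsub hcard
    have hmem : τ x ∈ (A k i).image τ := by rw [heq]; exact mem_A.2 hx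
    obtain ⟨z, hz, hzx⟩ := Finset.mem_image.1 hmem
    rw [← τ.injective hzx]
    exact mem_A.1 hz
  have hle : ∀ x, cls k x = t → cls k (τ x) ≤ t := by
    intro x hx
    by_contra hcon
    have h1 := habove' _ (not_le.1 hcon) x rfl
    rw [← h1, hx] at hcon
    exact hcon le_rfl
  obtain ⟨x1, hx1, hx1'⟩ := exists_loop τ t hle
  set j := cls k (τ x0) with hj
  have hjt : j < t := lt_of_le_of_ne (hle x0 hx0) hx0'
  refine ⟨t, j, hjt, ?_⟩
  have hloop : ∀ b : Fin (k + 1) → K, b t ≤ S τ b t := by
    intro b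
    have := le_S τ b x1
    rwa [hx1, hx1'] at this
  have hI' : ∀ M : ℕ, ∀ q : LTerm (Fin (k + 1)), q.eval b ≤ v → q.eval ((S τ)^[M] b) ≤ v := by
    intro M
    induction M with
    | zero => intro q hq; exact hq
    | succ M ih =>
      intro q hq
      rw [Function.iterate_succ_apply']
      have h1 : (q.bind (sterm τ)).eval b ≤ v := by
        rw [eval_bind]; exact hI q hq
      have h2 := ih (q.bind (sterm τ)) h1
      rw [eval_bind] at h2
      exact h2
  obtain ⟨R, hR⟩ : ∃ R, orderOf τ = R + 1 := ⟨orderOf τ - 1, by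
    have := orderOf_pos τ
    omega⟩
  have hpow : τ ^ (R + 1) = 1 := by rw [← hR]; exact pow_orderOf_eq_one τ
  intro q hq
  refine le_trans (eval_mono ?_ q) (hI' (R + 1) q hq)
  have g1 : ∀ i, b i ≤ (S τ)^[R + 1] b i := by
    intro i
    obtain ⟨x, hx⟩ := A_nonempty k i
    have hx' := mem_A.1 hx
    have := le_S_iter τ (R + 1) b x
    rw [hpow, hx'] at this
    simpa [hx'] using this
  have g2 : b j ≤ (S τ)^[R + 1] b t := by
    rw [Function.iterate_succ_apply]
    refine le_trans ?_ (loop_iter τ t hloop R (S τ b))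
    have := le_S τ b x0
    rwa [hx0] at this
  have g3 : b t ≤ (S τ)^[R + 1] b j := by
    rw [Function.iterate_succ_apply]
    have h1 := le_S_iter τ R (S τ b) (τ x0)
    have h2 : (τ ^ R) (τ x0) = x0 := by
      have h3 : (τ ^ (R + 1)) x0 = x0 := by rw [hpow]; rfl
      have e : (τ ^ (R + 1)) x0 = (τ ^ R) (τ x0) := by
        rw [show τ ^ (R + 1) = τ ^ R * τ from pow_succ τ R]; rfl
      rw [← e]
      exact h3
    rw [h2, hx0] at h1
    exact (hloop b).trans h1
  intro i
  by_cases hi : i = t ∨ i = j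
  · simp only [hi, if_true]
    rcases hi with rfl | rfl
    · exact sup_le (g1 _) g2
    · exact sup_le g3 (g1 _)
  · simp only [hi, if_false]
    exact g1 i

end operator

/-! ### The core construction -/

section core

variable (E : Set (LTerm ℕ × LTerm ℕ))

/-- `p ≤ q` holds in the variety defined by `E` -/
def VLe {ι : Type} (p q : LTerm ι) : Prop :=
  ∀ (M : Type u) [Lattice M], InVariety E M → ∀ w : ι → M, p.eval w ≤ q.eval w

variable {K : Type u} [Lattice K] (a v : K)

/-- there is a failing inequality in `k + 1` variables, the last one evaluated at `v` -/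
def Good (k : ℕ) : Prop :=
  ∃ (b : Fin (k + 1) → K) (p q : LTerm (Fin (k + 1))), b (Fin.last k) = v ∧ VLe.{u} E p q ∧
    a ≤ p.eval b ∧ q.eval b ≤ v

theorem core (hd : ∀ w : K, w ≤ v ∨ a ≤ w ⊔ v) (hg : ∃ k, Good E a v k) :
    ∃ (n : ℕ) (T U : LTerm (Fin n)), IsSymmetric.{u} T ∧ IsSymmetric.{u} U ∧ VLe.{u} E T U ∧
      ∃ g : Fin n → K, a ≤ T.eval g ∧ U.eval g ≤ v := by
  classical
  obtain ⟨k, hkGood, hmin⟩ : ∃ k, Good E a v k ∧ ∀ m, m < k → ¬ Good E a v m :=
    ⟨Nat.find hg, Nat.find_spec hg, fun m hm => Nat.find_min hg hm⟩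
  obtain ⟨b, p, q, hb, hpq, hp, hq⟩ := hkGood
  -- step 1
  have step1 : ∀ τ : Equiv.Perm (Fin (2 ^ (k + 1) - 1)), (∃ x, cls k (τ x) ≠ cls k x) →
      ∃ r : LTerm (Fin (k + 1)), r.eval b ≤ v ∧ a ≤ r.eval (S τ b) := by
    intro τ hτ
    by_contra hcon
    push Not at hcon
    have hlast : v ≤ S τ b (Fin.last k) := by
      obtain ⟨x, hx, hx'⟩ := exists_loop τ (Fin.last k) (fun x _ => Fin.le_last _)
      have := le_S τ b x
      rw [hx, hx', hb] at this
      exact this
    have hI : ∀ r : LTerm (Fin (k + 1)), r.eval b ≤ v → r.eval (S τ b) ≤ v := by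
      intro r hr
      have h1 : (sup r (var (Fin.last k))).eval b ≤ v := by
        simp only [eval]; exact sup_le hr hb.le
      have h2 := hcon _ h1
      rcases hd ((sup r (var (Fin.last k))).eval (S τ b)) with h3 | h3
      · exact le_sup_left.trans h3
      · exfalso
        apply h2
        refine h3.trans (sup_le le_rfl ?_)
        exact hlast.trans le_sup_right
    obtain ⟨t, j, hjt, hm⟩ := merge b v τ hτ hI
    set b' : Fin (k + 1) → K := fun i => if i = t ∨ i = j then b t ⊔ b j else b i with hb'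
    have hb'le : ∀ i, b i ≤ b' i := by
      intro i
      simp only [hb']
      split_ifs with h
      · rcases h with rfl | rfl
        · exact le_sup_left
        · exact le_sup_right
      · exact le_rfl
    have hb'last : b' (Fin.last k) = v := by
      apply le_antisymm
      · have := hm (var (Fin.last k)) (by simp only [eval]; exact hb.le)
        exact this
      · rw [← hb]; exact hb'le _
    have hb'tj : b' t = b' j := by simp [hb']
    have hjl : j ≠ Fin.last k := fun h => absurd (hjt.trans_le (Fin.le_last t)) (by rw [h]; exact lt_irrefl _)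
    -- `k = m + 1`
    obtain ⟨m, hkm⟩ : ∃ m, k = m + 1 := by
      refine ⟨k - 1, ?_⟩
      have h1 : (j : ℕ) < (t : ℕ) := hjt
      have h2 := t.2
      omega
    clear_value b'
    subst hkm
    have hex : ∀ i : Fin (m + 2), ∃ i' : Fin (m + 1), b' (j.succAbove i') = b' i := by
      intro i
      by_cases hi : i = j
      · obtain ⟨z, hz⟩ := Fin.exists_succAbove_eq (x := t) (y := j) (ne_of_gt hjt)
        exact ⟨z, by rw [hz, hb'tj, hi]⟩
      · obtain ⟨z, hz⟩ := Fin.exists_succAbove_eq (x := i) (y := j) hi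
        exact ⟨z, by rw [hz]⟩
    choose g hgg using hex
    apply hmin m (by omega)
    refine ⟨fun i => b' (j.succAbove i), p.rename g, q.rename g, ?_, ?_, ?_, ?_⟩
    · have : j.succAbove (Fin.last m) = Fin.last (m + 1) := Fin.succAbove_ne_last_last hjl
      simp only [this]
      exact hb'last
    · intro M _ hM w
      rw [eval_rename, eval_rename]
      exact hpq M hM _
    · rw [eval_rename]
      have : (fun i => b' (j.succAbove (g i))) = b' := funext hgg
      rw [this]
      exact hp.trans (eval_mono hb'le p)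
    · rw [eval_rename]
      have : (fun i => b' (j.succAbove (g i))) = b' := funext hgg
      rw [this]
      exact hm q hq
  -- step 2: absorb all bad permutations
  have step2 : ∀ τ : Equiv.Perm (Fin (2 ^ (k + 1) - 1)), ∃ r : LTerm (Fin (k + 1)),
      r.eval b ≤ v ∧ ((∃ x, cls k (τ x) ≠ cls k x) → a ≤ r.eval (S τ b)) := by
    intro τ
    by_cases hτ : ∃ x, cls k (τ x) ≠ cls k x
    · obtain ⟨r, h1, h2⟩ := step1 τ hτ
      exact ⟨r, h1, fun _ => h2⟩
    · exact ⟨q, hq, fun h => absurd h hτ⟩
  choose r hr1 hr2 using step2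
  let qq : LTerm (Fin (k + 1)) :=
    ((Finset.univ : Finset (Equiv.Perm (Fin (2 ^ (k + 1) - 1)))).toList.map r).foldr sup q
  have hqq : qq.eval b ≤ v := by
    refine (foldr_sup_le _ _ _ _).2 ⟨hq, ?_⟩
    intro t ht
    obtain ⟨τ, _, rfl⟩ := List.mem_map.1 ht
    exact hr1 τ
  have hqq1 : ∀ (M : Type u) [Lattice M] (w : Fin (k + 1) → M), q.eval w ≤ qq.eval w :=
    fun M _ w => ((foldr_sup_le _ _ w _).1 (le_refl (qq.eval w))).1
  have hqq2 : ∀ (M : Type u) [Lattice M] (w : Fin (k + 1) → M) τ, (r τ).eval w ≤ qq.eval w :=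
    fun M _ w τ => ((foldr_sup_le _ _ w _).1 (le_refl (qq.eval w))).2 _
      (List.mem_map.2 ⟨τ, Finset.mem_toList.2 (Finset.mem_univ _), rfl⟩)
  let NC : Finset (Equiv.Perm (Fin (2 ^ (k + 1) - 1))) :=
    Finset.univ.filter (fun τ => ∃ x, cls k (τ x) ≠ cls k x)
  let pp : LTerm (Fin (k + 1)) :=
    (NC.toList.map (fun τ => qq.bind (sterm τ))).foldr inf p
  have hpp : a ≤ pp.eval b := by
    refine (le_foldr_inf _ _ _ _).2 ⟨hp, ?_⟩
    intro t ht
    obtain ⟨τ, hτ, rfl⟩ := List.mem_map.1 ht
    rw [eval_bind]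
    exact (hr2 τ (Finset.mem_filter.1 (Finset.mem_toList.1 hτ)).2).trans (hqq2 K (S τ b) τ)
  have hpp1 : ∀ (M : Type u) [Lattice M] (w : Fin (k + 1) → M), pp.eval w ≤ p.eval w :=
    fun M _ w => ((le_foldr_inf _ _ w _).1 (le_refl (pp.eval w))).1
  have hpp2 : ∀ (M : Type u) [Lattice M] (w : Fin (k + 1) → M) τ, τ ∈ NC →
      pp.eval w ≤ qq.eval (S τ w) := by
    intro M _ w τ hτ
    have := ((le_foldr_inf _ _ w _).1 (le_refl (pp.eval w))).2 _
      (List.mem_map.2 ⟨τ, Finset.mem_toList.2 hτ, rfl⟩)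
    rw [eval_bind] at this
    exact this
  have hV : ∀ (M : Type u) [Lattice M], InVariety E M → ∀ (w : Fin (k + 1) → M) τ,
      pp.eval w ≤ qq.eval (S τ w) := by
    intro M _ hM w τ
    by_cases hτ : τ ∈ NC
    · exact hpp2 M w τ hτ
    · have hτ' : ∀ x, cls k (τ x) = cls k x := by
        intro x
        by_contra hx
        exact hτ (Finset.mem_filter.2 ⟨Finset.mem_univ _, x, hx⟩)
      refine (hpp1 M w).trans ((hpq M hM w).trans ((hqq1 M w).trans (eval_mono ?_ qq)))
      intro i
      obtain ⟨x, hx⟩ := A_nonempty k i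
      have hx' := mem_A.1 hx
      have := le_S τ w x
      rwa [hτ' x, hx'] at this
  -- the symmetric terms
  let T : LTerm (Fin (2 ^ (k + 1) - 1)) :=
    bSup (Finset.univ : Finset (Equiv.Perm (Fin (2 ^ (k + 1) - 1)))) Finset.univ_nonempty
      (fun σ => pp.bind (fun i => bInf (A k i) (A_nonempty k i) (fun l => var (σ l))))
  let U : LTerm (Fin (2 ^ (k + 1) - 1)) :=
    bInf (Finset.univ : Finset (Equiv.Perm (Fin (2 ^ (k + 1) - 1)))) Finset.univ_nonempty
      (fun σ => qq.bind (fun i => bSup (A k i) (A_nonempty k i) (fun l => var (σ l))))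
  have hTle : ∀ (M : Type u) [Lattice M] (w : Fin (2 ^ (k + 1) - 1) → M) (z : M),
      T.eval w ≤ z ↔ ∀ σ : Equiv.Perm (Fin (2 ^ (k + 1) - 1)),
        pp.eval (fun i => (bInf (A k i) (A_nonempty k i) (fun l => var (σ l))).eval w) ≤ z := by
    intro M _ w z
    rw [bSup_le]
    constructor
    · intro h σ
      have := h σ (Finset.mem_univ _)
      rwa [eval_bind] at this
    · intro h σ _
      rw [eval_bind]
      exact h σ
  have hleU : ∀ (M : Type u) [Lattice M] (w : Fin (2 ^ (k + 1) - 1) → M) (z : M),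
      z ≤ U.eval w ↔ ∀ σ : Equiv.Perm (Fin (2 ^ (k + 1) - 1)),
        z ≤ qq.eval (fun i => (bSup (A k i) (A_nonempty k i) (fun l => var (σ l))).eval w) := by
    intro M _ w z
    rw [le_bInf]
    constructor
    · intro h σ
      have := h σ (Finset.mem_univ _)
      rwa [eval_bind] at this
    · intro h σ _
      rw [eval_bind]
      exact h σ
  have binf_perm : ∀ (M : Type u) [Lattice M] (w : Fin (2 ^ (k + 1) - 1) → M)
      (σ ρ : Equiv.Perm (Fin (2 ^ (k + 1) - 1))) (i : Fin (k + 1)),
      (bInf (A k i) (A_nonempty k i) (fun l => var (σ l))).eval (fun l => w (ρ l)) =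
        (bInf (A k i) (A_nonempty k i) (fun l => var ((ρ * σ) l))).eval w := by
    intro M _ w σ ρ i
    apply eq_of_forall_le_iff
    intro z
    rw [le_bInf, le_bInf]
    rfl
  have bsup_perm : ∀ (M : Type u) [Lattice M] (w : Fin (2 ^ (k + 1) - 1) → M)
      (σ ρ : Equiv.Perm (Fin (2 ^ (k + 1) - 1))) (i : Fin (k + 1)),
      (bSup (A k i) (A_nonempty k i) (fun l => var (σ l))).eval (fun l => w (ρ l)) =
        (bSup (A k i) (A_nonempty k i) (fun l => var ((ρ * σ) l))).eval w := by
    intro M _ w σ ρ i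
    apply eq_of_forall_ge_iff
    intro z
    rw [bSup_le, bSup_le]
    rfl
  refine ⟨2 ^ (k + 1) - 1, T, U, ?_, ?_, ?_, fun l => b (cls k l), ?_, ?_⟩
  · intro ρ M _ w
    rw [eval_rename]
    apply eq_of_forall_ge_iff
    intro z
    rw [hTle, hTle]
    constructor
    · intro h σ
      have := h (ρ * σ)
      simp only [binf_perm]
      exact this
    · intro h σ
      have := h (ρ⁻¹ * σ)
      simp only [binf_perm, mul_inv_cancel_left] at this
      exact this
  · intro ρ M _ w
    rw [eval_rename]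
    apply eq_of_forall_le_iff
    intro z
    rw [hleU, hleU]
    constructor
    · intro h σ
      have := h (ρ * σ)
      simp only [bsup_perm]
      exact this
    · intro h σ
      have := h (ρ⁻¹ * σ)
      simp only [bsup_perm, mul_inv_cancel_left] at this
      exact this
  · intro M _ hM w
    rw [hTle]
    intro σ
    rw [hleU]
    intro ρ
    refine (hV M hM _ (σ⁻¹ * ρ)).trans (eval_mono ?_ qq)
    intro j
    show (sterm (σ⁻¹ * ρ) j).eval _ ≤ _
    unfold sterm
    rw [bSup_le]
    intro l hl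
    have h1 : (bInf (A k (cls k ((σ⁻¹ * ρ) l))) (A_nonempty k _) (fun l => var (σ l))).eval w ≤
        (var (σ ((σ⁻¹ * ρ) l))).eval w :=
      bInf_le (f := fun l => var (σ l)) (mem_A.2 rfl)
    have h2 : (var (ρ l)).eval w ≤
        (bSup (A k j) (A_nonempty k j) (fun l => var (ρ l))).eval w :=
      le_bSup (f := fun l => var (ρ l)) hl
    have h3 : σ ((σ⁻¹ * ρ) l) = ρ l := by simp
    rw [h3] at h1
    exact h1.trans h2
  · refine le_trans ?_ ((hTle K _ _).1 le_rfl 1)
    refine hpp.trans (eval_mono ?_ pp)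
    intro i
    rw [le_bInf]
    intro l hl
    rw [← mem_A.1 hl]
    exact le_rfl
  · refine le_trans ((hleU K _ _).1 le_rfl 1) ?_
    refine le_trans (eval_mono ?_ qq) hqq
    intro i
    rw [bSup_le]
    intro l hl
    rw [← mem_A.1 hl]
    exact le_rfl

end core

/-! ### Maximal ideals -/

theorem exists_maximal {L : Type u} [Lattice L] (x y : L) (h : ¬ x ≤ y) :
    ∃ v : Order.Ideal L, Order.Ideal.principal y ≤ v ∧ ¬ Order.Ideal.principal x ≤ v ∧
      ∀ w : Order.Ideal L, w ≤ v ∨ Order.Ideal.principal x ≤ w ⊔ v := by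
  obtain ⟨v, hv, hmax⟩ := zorn_le_nonempty₀ {I : Order.Ideal L | x ∉ I} (by
    intro C hC hchain I0 hI0
    have hdir : Order.IsIdeal (⋃ I ∈ C, (I : Set L)) := by
      refine ⟨?_, ?_, ?_⟩
      · intro a b hba ha
        simp only [Set.mem_iUnion, exists_prop, SetLike.mem_coe] at ha ⊢
        obtain ⟨I, hI, haI⟩ := ha
        exact ⟨I, hI, I.lower hba haI⟩
      · obtain ⟨a, ha⟩ := I0.nonempty
        exact ⟨a, Set.mem_biUnion hI0 ha⟩
      · intro a ha b hb
        simp only [Set.mem_iUnion, exists_prop, SetLike.mem_coe] at ha hb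
        obtain ⟨I, hI, haI⟩ := ha
        obtain ⟨J, hJ, hbJ⟩ := hb
        rcases hchain.total hI hJ with hIJ | hIJ
        · exact ⟨a ⊔ b, Set.mem_biUnion hJ (Order.Ideal.sup_mem (hIJ haI) hbJ), le_sup_left,
            le_sup_right⟩
        · exact ⟨a ⊔ b, Set.mem_biUnion hI (Order.Ideal.sup_mem haI (hIJ hbJ)), le_sup_left,
            le_sup_right⟩
    refine ⟨hdir.toIdeal, ?_, ?_⟩
    · intro hx
      have hx' : x ∈ ⋃ I ∈ C, (I : Set L) := hx
      simp only [Set.mem_iUnion, exists_prop, SetLike.mem_coe] at hx'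
      obtain ⟨I, hI, hxI⟩ := hx'
      exact hC hI hxI
    · intro I hI a ha
      exact Set.mem_biUnion hI ha) (Order.Ideal.principal y) (by
    intro hx
    exact h (Order.Ideal.mem_principal.1 hx))
  refine ⟨v, hv, ?_, ?_⟩
  · intro hle
    exact hmax.prop (Order.Ideal.principal_le_iff.1 hle)
  · intro w
    by_cases hx : x ∈ w ⊔ v
    · exact Or.inr (Order.Ideal.principal_le_iff.2 hx)
    · left
      exact le_sup_left.trans (hmax.le_of_ge hx le_sup_right)

/-- The main step: `V`-inequalities hold in the symmetric part of `V`. -/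
theorem main_le (E : Set (LTerm ℕ × LTerm ℕ)) (L : Type u) [Lattice L] (hL : InSymmetricPart E L)
    (N : ℕ) (p q : LTerm (Fin (N + 1))) (hpq : VLe.{u} E p q) (x : Fin (N + 1) → L) :
    p.eval x ≤ q.eval x := by
  by_contra hcon
  obtain ⟨v, hv1, hv2, hd⟩ := exists_maximal (p.eval x) (q.eval x) hcon
  have hgood : ∃ k, Good E (Order.Ideal.principal (p.eval x)) v k := by
    refine ⟨N + 1, Fin.snoc (α := fun _ => Order.Ideal L)
      (fun i => Order.Ideal.principal (x i)) v, p.rename Fin.castSucc, q.rename Fin.castSucc,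
      ?_, ?_, ?_, ?_⟩
    · simp
    · intro M _ hM w
      rw [eval_rename, eval_rename]
      exact hpq M hM _
    · rw [eval_rename]
      simp only [Fin.snoc_castSucc]
      rw [eval_principal]
    · rw [eval_rename]
      simp only [Fin.snoc_castSucc]
      rw [eval_principal]
      exact hv1
  obtain ⟨n, T, U, hT, hU, hTU, g, hg1, hg2⟩ := core E _ v hd hgood
  have h1 : HoldsIn L (inf T U) T := by
    apply hL n (inf T U) T
    · intro σ M _ w
      have e1 := hT σ M w
      have e2 := hU σ M w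
      simp only [eval, rename]
      rw [e1, e2]
    · exact hT
    · intro M _ hM w
      simp only [eval]
      exact inf_eq_left.2 (hTU M hM w)
  have h2 : ∀ w : Fin n → L, T.eval w ≤ U.eval w := by
    intro w
    have := h1 w
    simp only [eval] at this
    exact inf_eq_left.1 this
  exact hv2 (hg1.trans ((le_ideal h2 g).trans hg2))

/-- **Theorem.**  Every variety of lattices is defined by the symmetric identities valid in it:
a lattice belongs to the variety `V` defined by a set `E` of identities if and only if it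
satisfies all symmetric identities that hold in `V`. -/
theorem result (E : Set (LTerm ℕ × LTerm ℕ)) (L : Type u) [Lattice L] :
    InVariety E L ↔ InSymmetricPart E L := by
  constructor
  · intro h n t s _ _ hV
    exact hV L h
  · intro h e he x
    have key : ∀ p q : LTerm ℕ, (∀ (M : Type u) [Lattice M], InVariety E M →
        ∀ w : ℕ → M, p.eval w ≤ q.eval w) → p.eval x ≤ q.eval x := by
      intro p q hpq
      let N := max p.bound q.bound
      let f : ℕ → Fin (N + 1) := fun i => ⟨min i N, by omega⟩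
      have h1 : (p.rename f).eval (fun j : Fin (N + 1) => x (j : ℕ)) ≤
          (q.rename f).eval (fun j : Fin (N + 1) => x (j : ℕ)) := by
        apply main_le E L h N
        intro M _ hM w
        rw [eval_rename, eval_rename]
        exact hpq M hM _
      rw [eval_rename, eval_rename] at h1
      rw [eval_congr (w := fun i => x (f i)) p, eval_congr (w := fun i => x (f i)) q]
      · exact h1
      · intro i hi
        have : i ≤ N := hi.trans (le_max_right _ _)
        show x i = x (min i N)
        rw [min_eq_left this]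
      · intro i hi
        have : i ≤ N := hi.trans (le_max_left _ _)
        show x i = x (min i N)
        rw [min_eq_left this]
    apply le_antisymm
    · exact key e.1 e.2 fun M _ hM w => (hM e he w).le
    · exact key e.2 e.1 fun M _ hM w => (hM e he w).ge

end Pool.Agent.Results.MP_fa43b0_al.SymmetricAxioms
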